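import Pool.Agent.J4.H94.HV.Tve

/-!
# Turaev-Viro invariants of the complements of all highly twisted two-bridge links

`C(a_1, …, a_s)` is the two-bridge link with the alternating diagram with the twist regions
`a_1, …, a_s`; it is a knot or a link with two components.  Cut open it is the (1,1)-tangle of the
following picture: start with one strand and a cup to its right (three strands), perform `a_1`
crossings between the strands 1 and 2, then `a_2` opposite crossings between the strands 2 and 3,
then `a_3` crossings between the strands 1 and 2, and so on; finally close by a cap the strands 1 and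
2 if `s` is even (the third strand leaves), the strands 2 and 3 if `s` is odd (the first strand
leaves).

There is an absolute constant `M₀` such that for all `s ≥ 2` and all `a_1, …, a_s ≥ M₀`, with `V` the
hyperbolic volume of the complement of `L = C(a_1, …, a_s)`,

  `lim 2 π / m log |J_m (L; e^{2 π i / (m + 1/2)})| = V`   (`m → ∞`),
  `liminf 2 π / (r - 2) log TV_r (S³ - L) ≥ V`   (`r → ∞`, `r` odd, `A = e^{π i / r}`).

The first statement answers, for these links, the question of Detcherry, Kalfagianni and Yang about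
the coloured Jones polynomials at `t = e^{2 π i / (m + 1/2)}`, the second one is the lower bound in
the volume conjecture of Chen and Yang.  The volume is `2 (s - 1) v_8` up to `C ∑ 1 / a_j`, so that
there are infinitely many links for every number `s` of twist regions.

The coloured Jones polynomials, for arbitrary colours of the components, are defined from the
R-matrices of `U_q(sl_2)`, with `v = t^{1/2}` and `{k} = v^k - v^{-k}`.
-/

set_option autoImplicit false

namespace Pool.Agent.J4.H94.Old.HighlyTwistedLowerBound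

open Finset Filter Topology

/-! ### The coloured Jones polynomial -/

/-- `{n} = v^n - v^{-n}` -/
noncomputable def br (v : ℂ) (n : ℤ) : ℂ := v ^ n - v ^ (-n)

/-- `{n}! = {1} {2} ⋯ {n}` -/
noncomputable def brf (v : ℂ) (n : ℕ) : ℂ := ∏ j ∈ range n, br v ((j : ℤ) + 1)

/-- The positive crossing: the R-matrix of `U_q(sl_2)` as a map `V_a ⊗ V_b → V_b ⊗ V_a`, times
`v^{-(a-1)(b-1)/2}`.  The representation `V_a` has the basis `e_0, …, e_{a-1}`; all colours are at
most `K`, and the matrices have the indices `Fin K`, the entries with an index outside of the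
representation are zero.  `crossP K a b v p q` is the coefficient of `e_{p.1} ⊗ e_{p.2}` in the image
of `e_{q.1} ⊗ e_{q.2}`:
`e_i ⊗ e_j ↦ ∑_n v^{2(j+n)(i-n) - (b-1)(i-n) - (a-1)(j+n) + n(n-1)/2}
({j+n}! / ({j}! {n}!)) ∏_{t<n} {a-i+t} e_{j+n} ⊗ e_{i-n}`. -/
noncomputable def crossP (K a b : ℕ) (v : ℂ) : Matrix (Fin K × Fin K) (Fin K × Fin K) ℂ :=
  fun p q => if (q.1 : ℕ) < a ∧ (q.2 : ℕ) < b ∧ (p.1 : ℕ) < b ∧ (p.2 : ℕ) < a ∧
      (p.1 : ℕ) + p.2 = q.1 + q.2 ∧ (q.2 : ℕ) ≤ p.1 then
    v ^ (2 * ((p.1 : ℕ) : ℤ) * (p.2 : ℕ) - ((b : ℤ) - 1) * (p.2 : ℕ) -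
      ((a : ℤ) - 1) * (p.1 : ℕ)) *
      v ^ (((p.1 : ℕ) - q.2) * ((p.1 : ℕ) - q.2 - 1) / 2) *
      (brf v p.1 / (brf v q.2 * brf v ((p.1 : ℕ) - q.2))) *
      ∏ t ∈ range ((p.1 : ℕ) - q.2), br v ((a : ℤ) - (q.1 : ℕ) + t)
    else 0

/-- The negative crossing `V_a ⊗ V_b → V_b ⊗ V_a`, the inverse of the positive crossing
`V_b ⊗ V_a → V_a ⊗ V_b`:
`e_i ⊗ e_j ↦ ∑_n (-1)^n v^{(b-1)i + (a-1)j - 2ij - n(n-1)/2}
({i+n}! / ({i}! {n}!)) ∏_{t<n} {b-j+t} e_{j-n} ⊗ e_{i+n}`. -/
noncomputable def crossN (K a b : ℕ) (v : ℂ) : Matrix (Fin K × Fin K) (Fin K × Fin K) ℂ :=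
  fun p q => if (q.1 : ℕ) < a ∧ (q.2 : ℕ) < b ∧ (p.1 : ℕ) < b ∧ (p.2 : ℕ) < a ∧
      (p.1 : ℕ) + p.2 = q.1 + q.2 ∧ (q.1 : ℕ) ≤ p.2 then
    (-1) ^ ((p.2 : ℕ) - q.1) *
      v ^ (((b : ℤ) - 1) * (q.1 : ℕ) + ((a : ℤ) - 1) * (q.2 : ℕ) -
        2 * ((q.1 : ℕ) : ℤ) * (q.2 : ℕ)) /
      v ^ (((p.2 : ℕ) - q.1) * ((p.2 : ℕ) - q.1 - 1) / 2) *
      (brf v p.2 / (brf v q.1 * brf v ((p.2 : ℕ) - q.1))) *
      ∏ t ∈ range ((p.2 : ℕ) - q.1), br v ((b : ℤ) - (q.2 : ℕ) + t)
    else 0

/-- The indices of three strands. -/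
abbrev B3 (K : ℕ) := Fin K × (Fin K × Fin K)

/-- An operator on the strands one and two of three strands. -/
def on12 {K : ℕ} (A : Matrix (Fin K × Fin K) (Fin K × Fin K) ℂ) : Matrix (B3 K) (B3 K) ℂ :=
  fun x y => if x.2.2 = y.2.2 then A (x.1, x.2.1) (y.1, y.2.1) else 0

/-- An operator on the strands two and three of three strands. -/
def on23 {K : ℕ} (A : Matrix (Fin K × Fin K) (Fin K × Fin K) ℂ) : Matrix (B3 K) (B3 K) ℂ :=
  fun x y => if x.1 = y.1 then A x.2 y.2 else 0

/-- The colours of the three strands. -/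
abbrev Colours := ℕ × (ℕ × ℕ)

/-- The letters `s_1^{±1}` (`false`) and `s_2^{±1}` (`true`) of words in the braid group on three
strands; the second entry is `true` for the positive crossing and `false` for its inverse. -/
abbrev Letter := Bool × Bool

/-- The colours of the strands after a letter. -/
def after (l : Letter) (c : Colours) : Colours :=
  if l.1 then (c.1, (c.2.2, c.2.1)) else (c.2.1, (c.1, c.2.2))

/-- The colours of the strands after a word. -/
def afterWord : List Letter → Colours → Colours
  | [], c => c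
  | l :: w, c => afterWord w (after l c)

/-- The operator of a letter, the strands have the colours `c` before the letter. -/
noncomputable def letter (K : ℕ) (l : Letter) (c : Colours) (v : ℂ) : Matrix (B3 K) (B3 K) ℂ :=
  match l with
  | (false, true) => on12 (crossP K c.1 c.2.1 v)
  | (false, false) => on12 (crossN K c.1 c.2.1 v)
  | (true, true) => on23 (crossP K c.2.1 c.2.2 v)
  | (true, false) => on23 (crossN K c.2.1 c.2.2 v)

/-- The operator of a word, the first letter acts first. -/
noncomputable def braid (K : ℕ) : List Letter → Colours → ℂ → Matrix (B3 K) (B3 K) ℂ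
  | [], _, _ => 1
  | l :: w, c, v => braid K w (after l c) v * letter K l c v

/-- The coefficients of the invariant vector `∑_k kap k e_k ⊗ e_{b-1-k}` of `V_b ⊗ V_b`:
`kap k = (-1)^k v^{k(b-2-k)} {k}! {b-1-k}! / {b-1}!`. -/
noncomputable def kap (b : ℕ) (v : ℂ) (k : ℕ) : ℂ :=
  (-1) ^ k * v ^ ((k : ℤ) * ((b : ℤ) - 2 - k)) * (brf v k * brf v (b - 1 - k) / brf v (b - 1))

/-- The cup of colour `b`: the invariant vector of `V_b ⊗ V_b`. -/
noncomputable def cup (K b : ℕ) (v : ℂ) (p : Fin K × Fin K) : ℂ :=
  if (p.1 : ℕ) + p.2 + 1 = b then kap b v p.1 else 0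

/-- The cap of colour `b`: the invariant linear form on `V_b ⊗ V_b`. -/
noncomputable def cap (K b : ℕ) (v : ℂ) (p : Fin K × Fin K) : ℂ :=
  if (p.1 : ℕ) + p.2 + 1 = b then (kap b v p.2)⁻¹ else 0

/-- The braid word of the twist regions `a_1, a_2, …` (the first letter acts first): `a_1` crossings
between the strands 1 and 2, `a_2` opposite crossings between the strands 2 and 3, and so on
(for `b = true`; for `b = false` it starts with opposite crossings between the strands 2 and 3). -/
def word : Bool → List ℕ → List Letter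
  | _, [] => []
  | b, a :: l => List.replicate a (if b then (false, true) else (true, false)) ++ word (!b) l

/-- The invariant of the (1,1)-tangle of `C(a_1, …, a_s)`: the open strand has the colour `a`, the
cup and the cap have the colour `b`; the coefficient of `e_0` in the image of the highest weight
vector `e_0 ∈ V_a`.  (The crossings carry the factors `v^{∓(a-1)(b-1)/2}`; in a different framing or
normalisation the invariant is multiplied by a power of `v`, of absolute value `1` for the values of
`v` used below.) -/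
noncomputable def tangle (as : List ℕ) (K a b : ℕ) (v : ℂ) : ℂ :=
  if hK : 0 < K then
    ∑ p : Fin K × Fin K, ∑ q : Fin K × Fin K, cap K b v p *
      braid K (word true as) (a, (b, b)) v
        (if as.length % 2 = 0 then (p.1, (p.2, ⟨0, hK⟩)) else (⟨0, hK⟩, p)) (⟨0, hK⟩, q) *
      cup K b v q
  else 0

/-- The unnormalised coloured Jones polynomial of `C(a_1, …, a_s)` at `t = v^2` for the colours `a`
(the component of the open strand) and `b` (the component of the cup), both at most `K`: the value of
the unknot with colour `a` is `[a] = {a} / {1}`. -/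
noncomputable def jonesU (as : List ℕ) (K a b : ℕ) (v : ℂ) : ℂ :=
  br v (a : ℤ) / br v 1 * tangle as K a b v

/-- The colourings of the components of `C(a_1, …, a_s)` with the colours `1, …, M`: the pairs
`(a, b)`, `a` the colour of the open strand, `b` the colour of the cup, for which the colours at the
top of the braid are `b, b, a` (for even `s`) or `a, b, b` (for odd `s`).  For a knot these are the
pairs `(a, a)`, for a link with two components all pairs. -/
def colourings (as : List ℕ) (M : ℕ) : Finset (ℕ × ℕ) :=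
  ((Icc 1 M) ×ˢ (Icc 1 M)).filter fun c => afterWord (word true as) (c.1, (c.2, c.2)) =
    if as.length % 2 = 0 then (c.2, (c.2, c.1)) else (c.1, (c.2, c.2))

/-- `v_r = exp (2 π i / r)`, so that `t = v_r^2 = exp (4 π i / r) = A_r^4` for `A_r = exp (π i / r)`. -/
noncomputable def root (r : ℕ) : ℂ := Complex.exp (2 * Real.pi * Complex.I / r)

/-- The Turaev-Viro invariant of the complement of `L = C(a_1, …, a_s)` (`m` components, `m = 1` or
`m = 2`) for odd `r`, at `A_r = exp (π i / r)`, as given by the theorem of Detcherry, Kalfagianni and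
Yang: `TV_r = 2^(m-1) (2 sin (2 π / r) / √r)^2 ∑ |J_c (L; e^{4 π i / r})|^2`, the sum over all
colours `1, …, (r - 1) / 2` of the components; `2^m` is the number of the colourings with two
colours. -/
noncomputable def turaevViro (as : List ℕ) (r : ℕ) : ℝ :=
  ((colourings as 2).card : ℝ) / 2 * (2 * Real.sin (2 * Real.pi / r) / Real.sqrt r) ^ 2 *
    ∑ c ∈ colourings as ((r - 1) / 2), ‖jonesU as ((r - 1) / 2) c.1 c.2 (root r)‖ ^ 2

/-! ### The hyperbolic volume

The complement of `C(a_1, …, a_s)` has a canonical ideal triangulation (Sakuma and Weeks; Gueritaud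
and Futer) with `c - 3` layers of two ideal tetrahedra, `c = a_1 + ⋯ + a_s` being the number of
crossings.  Its angle structures are parametrised by `w_0, …, w_{c-2}` with `w_0 = w_{c-2} = π`;
both tetrahedra of layer `j` have the dihedral angles `angX`, `angY`, `angZ`.  The layers
`a_1 + ⋯ + a_i - 1`, `0 < i < s`, are the hinges between two twist regions. -/

/-- Lobachevsky's function `Λ(x) = -∫_0^x log |2 sin t| dt`. -/
noncomputable def Lob (x : ℝ) : ℝ := -∫ t in (0 : ℝ)..x, Real.log |2 * Real.sin t|

/-- Volume of the regular ideal octahedron, `8 Λ(π/4) = 3.6638…`. -/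
noncomputable def v8 : ℝ := 8 * Lob (Real.pi / 4)

/-- the hinge layers -/
def IsHinge (as : List ℕ) (j : ℕ) : Prop :=
  ∃ i, 0 < i ∧ i < as.length ∧ j + 1 = (as.take i).sum

open Classical in
/-- first dihedral angle of the tetrahedra of layer `j` -/
noncomputable def angX (as : List ℕ) (w : ℕ → ℝ) (j : ℕ) : ℝ :=
  if IsHinge as j then (w (j - 1) + w j - w (j + 1)) / 2 else (w (j - 1) + w (j + 1)) / 2

open Classical in
/-- second dihedral angle of the tetrahedra of layer `j` -/
noncomputable def angY (as : List ℕ) (w : ℕ → ℝ) (j : ℕ) : ℝ :=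
  if IsHinge as j then (-w (j - 1) + w j + w (j + 1)) / 2
  else (2 * w j - w (j - 1) - w (j + 1)) / 2

/-- third dihedral angle of the tetrahedra of layer `j` -/
noncomputable def angZ (w : ℕ → ℝ) (j : ℕ) : ℝ := Real.pi - w j

/-- the angle structures -/
def IsAngle (as : List ℕ) (w : ℕ → ℝ) : Prop :=
  w 0 = Real.pi ∧ w (as.sum - 2) = Real.pi ∧
    ∀ j, 1 ≤ j → j < as.sum - 2 → 0 < angX as w j ∧ 0 < angY as w j ∧ 0 < angZ w j

/-- the volume of an angle structure: two ideal tetrahedra in every layer -/
noncomputable def vol (as : List ℕ) (w : ℕ → ℝ) : ℝ :=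
  ∑ j ∈ Ico 1 (as.sum - 2), 2 * (Lob (angX as w j) + Lob (angY as w j) + Lob (angZ w j))

/-! ### Checks of the definitions (not part of the result) -/

/-- `C(2, 2)` (the figure-eight knot) and `C(3, 2, 2)` are knots, `C(3, 3)` and `C(2, 2, 2)` have two
components. -/
theorem components : (colourings [2, 2] 2).card = 2 ∧ (colourings [3, 2, 2] 2).card = 2 ∧
    (colourings [3, 3] 2).card = 4 ∧ (colourings [2, 2, 2] 2).card = 4 := by
  decide

/-! ### The result -/

lemma after_eq (l : Letter) (c : Colours) : after l c = Pool.Agent.Y482.CW.sw l c := rfl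

lemma afterWord_eq (w : List Letter) (c : Colours) :
    afterWord w c = Pool.Agent.Y482.CW.swW w c := by
  induction w generalizing c with
  | nil => rfl
  | cons l w ih => exact ih _

lemma letter_eq (K : ℕ) (l : Letter) (c : Colours) (v : ℂ) :
    letter K l c v = Pool.Agent.Y482.CW.lt K l c v := by
  rcases l with ⟨_ | _, _ | _⟩ <;> rfl

lemma braid_eq (K : ℕ) (w : List Letter) (c : Colours) (v : ℂ) :
    braid K w c v = Pool.Agent.Y482.CW.rp K w c v := by
  induction w generalizing c with
  | nil => rfl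
  | cons l w ih =>
    change braid K w (after l c) v * letter K l c v = _
    rw [ih, letter_eq]
    rfl

lemma word_eq : ∀ (b : Bool) (as : List ℕ), word b as = Pool.Agent.J4.H94.HV.wd b as
  | _, [] => rfl
  | b, a :: l => by
    rw [word, Pool.Agent.J4.H94.HV.wd, word_eq (!b) l]

lemma tangle_eq (as : List ℕ) (K a b : ℕ) :
    tangle as K a b = Pool.Agent.J4.H94.HV.tn as K a b := by
  funext v
  unfold tangle Pool.Agent.J4.H94.HV.tn
  simp only [braid_eq, word_eq]
  rfl

lemma colourings_eq (as : List ℕ) (M : ℕ) :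
    colourings as M = Pool.Agent.J4.H94.HV.cls as M := by
  unfold colourings Pool.Agent.J4.H94.HV.cls
  exact Finset.filter_congr fun c _ => by rw [afterWord_eq, word_eq]

lemma turaevViro_eq (as : List ℕ) (r : ℕ) :
    turaevViro as r = Pool.Agent.J4.H94.HV.tvh as r := by
  unfold turaevViro Pool.Agent.J4.H94.HV.tvh jonesU
  rw [colourings_eq, colourings_eq]
  refine congrArg _ (Finset.sum_congr rfl fun c _ => ?_)
  rw [tangle_eq]
  rfl

/-- Zigzag: without crossings the tangle is trivial (the unknot has the value `[a]`). -/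
theorem zigzag (N : ℕ) (hN : 0 < N) (v : ℂ) (hv : v ≠ 0)
    (h : ∀ k : ℕ, 0 < k → k < N → br v k ≠ 0) : tangle [] N N N v = 1 := by
  rw [tangle_eq]
  exact Pool.Agent.J4.H94.HV.zig hN hv h

open Classical in
lemma volume_eq (as : List ℕ) : {W : ℝ | ∃ w, IsAngle as w ∧ vol as w = W} =
    {W : ℝ | ∃ w, Pool.Agent.W711.HT.AngG (as.sum - 2) (Pool.Agent.W711.HT.hin as) w ∧
      Pool.Agent.W711.HT.volG (as.sum - 2) (Pool.Agent.W711.HT.hin as) w = W} := rfl

/-- **Highly twisted two-bridge links.**  There are absolute constants `M₀` and `C` such that for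
every `s ≥ 2` and all `a_1, …, a_s ≥ M₀`, with `L = C(a_1, …, a_s)` (a knot or a link with two
components):
(1) for odd `r` and all colours at most `(r - 1) / 2` the coloured Jones polynomial is continuous at
`v_r`, so that the numbers in the formula for `TV_r` are its values at `t = e^{4 π i / r}` in the
usual sense;
(2) the volume functional has a maximum `V` over the angle structures of the canonical ideal
triangulation of the link complement (by Casson and Rivin the maximum is the hyperbolic volume), and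
`V` is `2 (s - 1) v_8` up to `C ∑ 1 / a_j`;
(3) `2 π / m log |J_m (L; t)|` at `t = e^{2 π i / (m + 1/2)}`, that is `v = v_{2 m + 1}`, tends to
`V` as `m → ∞`, all components with the colour `m` (the limit asked for by Detcherry, Kalfagianni
and Yang);
(4) `liminf 2 π / (r - 2) log TV_r (S³ - L) ≥ V`, `r → ∞`, `r` odd (one half of the conjecture of
Chen and Yang): for every `ε > 0` and all large odd `r`,
`TV_r ≥ exp ((r - 2) / (2 π) (V - ε))`. -/
theorem result : ∃ (M₀ : ℕ) (C : ℝ), ∀ as : List ℕ, 2 ≤ as.length → (∀ a ∈ as, M₀ ≤ a) →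
    (∀ r a b : ℕ, Odd r → a ≤ (r - 1) / 2 → b ≤ (r - 1) / 2 →
      ContinuousAt (tangle as ((r - 1) / 2) a b) (root r)) ∧
    ∃ V : ℝ, IsGreatest {W : ℝ | ∃ w, IsAngle as w ∧ vol as w = W} V ∧
      |V - 2 * v8 * ((as.length : ℝ) - 1)| ≤ C * (as.map fun a : ℕ => 1 / (a : ℝ)).sum ∧
      Tendsto (fun m : ℕ => 2 * Real.pi / (m : ℝ) * Real.log ‖jonesU as m m m (root (2 * m + 1))‖)
        atTop (𝓝 V) ∧
      ∀ ε : ℝ, 0 < ε → ∀ᶠ r : ℕ in atTop ⊓ 𝓟 {r : ℕ | Odd r},
        Real.exp (((r : ℝ) - 2) / (2 * Real.pi) * (V - ε)) ≤ turaevViro as r := by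
  obtain ⟨C, M₀, _, h⟩ := Pool.Agent.J4.H94.HV.final_tv
  classical
  refine ⟨M₀, C, fun as hl ha => ⟨?_, ?_⟩⟩
  · intro r a b hr h1 h2
    rw [tangle_eq]
    obtain ⟨M, rfl⟩ := hr
    have e : root (2 * M + 1) = Pool.Agent.W707.TV.vh M := (Pool.Agent.W707.TV.vh_root M).symm
    rw [e]
    exact Pool.Agent.J4.H94.HV.tn_cont as _ (by omega) (by omega)
  · obtain ⟨V, h1, h2, h3, h4⟩ := h as hl ha
    refine ⟨V, ?_, ?_, ?_, ?_⟩
    · rw [volume_eq]
      exact h1
    · rw [Pool.Agent.J4.H94.HV.four_bet] at h2
      exact h2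
    · refine (Pool.Agent.J4.H94.HV.growU as h3).congr fun m => ?_
      unfold jonesU
      have e : root (2 * m + 1) = Pool.Agent.W707.TV.vh m := (Pool.Agent.W707.TV.vh_root m).symm
      rw [e, tangle_eq]
      rfl
    · intro ε hε
      filter_upwards [h4 ε hε] with r hr
      rw [turaevViro_eq]
      exact hr

end Pool.Agent.J4.H94.Old.HighlyTwistedLowerBound
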