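import Pool.Agent.J4.H94.RP.Ends
import Pool.Agent.W613.QAT.Cont
import Pool.Agent.W193.QAT.R1
import Pool.Agent.W591.QAT.Reid
import Pool.Agent.W683.QAT.Slide
import Pool.Agent.H550R3.Jones.SanSkein699

/-!
# The growth of the Kashaev invariants of all links: two neighbouring twist regions

Let a link diagram have `t ≥ 2` twist regions, and let two of them, with `m` and `m'` crossings, be
neighbours (joined by an arc of the diagram).  Then
`limsup (2 π / N) log |⟨L⟩_N| ≤ (E(m) + E(m')) / 2 + ∑ rate(a) ≤ 2 v_8 + 10 v_3 (t - 2)`,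
the sum over the other twist regions, `a` the number of crossings, `rate(a) = min (a v_8, 10 v_3)`, and
`E(m) ≤ 2 v_8` the volume of the complement of the double twist link `C(m, m)` (`E(0) = E(1) = 0`,
`E(2) = 2 v_3`, `E(3) = 4 v_3`).  Here `v_3 = 1.01494…` and `v_8 = 3.66386…` are the volumes of the
regular ideal tetrahedron and octahedron.  The theorem of Agol and D. Thurston says that the volume of
the complement is at most `10 v_3 (t - 1)`, which is larger than `2 v_8 + 10 v_3 (t - 2)`.

The two twist regions are replaced by arbitrary tangles `T`, `S` in part (2) of the result.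

A link diagram, cut open at one point, is a list of pieces from bottom to top: cups, caps, and
twist regions (`m` crossings in a row of two neighbouring strands; one crossing for `m = 1`).
Everything is defined from the R-matrix of `U_q(sl_2)`, with `v = q^{1/2}` and
`{k} = v^k - v^{-k}`.  The `N`-coloured Jones polynomial is the (scalar) operator of the
(1,1)-tangle, read off at the highest weight vector.  The Kashaev invariant is its value at
`v = exp (π i / N)`, that is `q = exp (2 π i / N)`; changes of the framing and of the orientations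
multiply it by a number of absolute value `1`.
-/

set_option autoImplicit false

namespace Pool.Agent.J4.H94.Old.NeighbourTwistRegions

open Finset Filter Topology

/-! ### The coloured Jones polynomial -/

/-- `{n} = v^n - v^{-n}` -/
noncomputable def br (v : ℂ) (n : ℤ) : ℂ := v ^ n - v ^ (-n)

/-- `{n}! = {1} {2} ⋯ {n}` -/
noncomputable def brf (v : ℂ) (n : ℕ) : ℂ := ∏ j ∈ range n, br v ((j : ℤ) + 1)

/-- The positive crossing: the R-matrix of `U_q(sl_2)` on `V_N ⊗ V_N`, `V_N` with basis
`e_0, …, e_{N-1}`, times the framing factor `v^{-(N^2-1)/2}`; `crossP N v p q` is the coefficient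
of `e_{p.1} ⊗ e_{p.2}` in the image of `e_{q.1} ⊗ e_{q.2}`:
`e_i ⊗ e_j ↦ ∑_n v^{-(N-1)(1+i+j) + 2(i-n)(j+n) + n(n-1)/2}
({j+n}! / ({j}! {n}!)) ∏_{t<n} {N-i+t} e_{j+n} ⊗ e_{i-n}`. -/
noncomputable def crossP (N : ℕ) (v : ℂ) : Matrix (Fin N × Fin N) (Fin N × Fin N) ℂ :=
  fun p q => if (p.1 : ℕ) + p.2 = q.1 + q.2 ∧ (q.2 : ℕ) ≤ p.1 then
    v ^ (-((N : ℤ) - 1) * (1 + (q.1 : ℕ) + (q.2 : ℕ)) + 2 * (p.1 : ℕ) * (p.2 : ℕ)) *
      v ^ (((p.1 : ℕ) - q.2) * ((p.1 : ℕ) - q.2 - 1) / 2) *
      (brf v p.1 / (brf v q.2 * brf v ((p.1 : ℕ) - q.2))) *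
      ∏ t ∈ range ((p.1 : ℕ) - q.2), br v ((N : ℤ) - (q.1 : ℕ) + t)
    else 0

/-- The negative crossing, inverse of `crossP N v`:
`e_i ⊗ e_j ↦ ∑_n (-1)^n v^{(N-1)(1+i+j) - 2ij - n(n-1)/2}
({i+n}! / ({i}! {n}!)) ∏_{t<n} {N-j+t} e_{j-n} ⊗ e_{i+n}`. -/
noncomputable def crossN (N : ℕ) (v : ℂ) : Matrix (Fin N × Fin N) (Fin N × Fin N) ℂ :=
  fun p q => if (p.1 : ℕ) + p.2 = q.1 + q.2 ∧ (q.1 : ℕ) ≤ p.2 then
    (-1) ^ ((p.2 : ℕ) - q.1) *
      v ^ (((N : ℤ) - 1) * (1 + (q.1 : ℕ) + (q.2 : ℕ)) - 2 * (q.1 : ℕ) * (q.2 : ℕ)) /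
      v ^ (((p.2 : ℕ) - q.1) * ((p.2 : ℕ) - q.1 - 1) / 2) *
      (brf v p.2 / (brf v q.1 * brf v ((p.2 : ℕ) - q.1))) *
      ∏ t ∈ range ((p.2 : ℕ) - q.1), br v ((N : ℤ) - (q.2 : ℕ) + t)
    else 0

/-- The coefficients of the invariant vector `∑_k kap k e_k ⊗ e_{N-1-k}` of `V_N ⊗ V_N`:
`kap k = (-1)^k v^{k(N-2-k)} {k}! {N-1-k}! / {N-1}!`. -/
noncomputable def kap (N : ℕ) (v : ℂ) (k : ℕ) : ℂ :=
  (-1) ^ k * v ^ ((k : ℤ) * ((N : ℤ) - 2 - k)) * (brf v k * brf v (N - 1 - k) / brf v (N - 1))

/-- The cup: the invariant vector of `V_N ⊗ V_N`. -/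
noncomputable def cup (N : ℕ) (v : ℂ) (p : Fin N × Fin N) : ℂ :=
  if (p.1 : ℕ) + p.2 = N - 1 then kap N v p.1 else 0

/-- The cap: the invariant linear form on `V_N ⊗ V_N`. -/
noncomputable def cap (N : ℕ) (v : ℂ) (p : Fin N × Fin N) : ℂ :=
  if (p.1 : ℕ) + p.2 = N - 1 then (kap N v p.2)⁻¹ else 0

/-! ### Tangle diagrams -/

/-- The pieces of a diagram.  Strands are counted from `0`, from left to right.  `cup i` creates the
strands `i` and `i + 1`, `cap i` closes the strands `i` and `i + 1`, `twist i σ m` is a twist region: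
`m` crossings of the strands `i` and `i + 1`, all positive (`σ = true`) or all negative. -/
inductive Piece
  | cup (i : ℕ)
  | cap (i : ℕ)
  | twist (i : ℕ) (σ : Bool) (m : ℕ)

/-- The number of strands above a piece that has `n` strands below it. -/
def Piece.strands : Piece → ℕ → Option ℕ
  | .cup i, n => if i ≤ n then some (n + 2) else none
  | .cap i, n => if i + 2 ≤ n then some (n - 2) else none
  | .twist i _ _, n => if i + 2 ≤ n then some n else none

/-- A diagram: the list of its pieces from bottom to top. -/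
abbrev Diagram := List Piece

/-- `D` is the diagram of a tangle with `n` strands at the bottom and `k` strands at the top.  (The
closure of a (1,1)-tangle is a link, and every link arises in this way.) -/
def IsTangle (D : Diagram) (n k : ℕ) : Prop :=
  D.foldl (fun n P => n.bind P.strands) (some n) = some k

/-- The operator of a piece.  A vector of `V_N ⊗ ⋯ ⊗ V_N` is given by its coefficients with respect
to the basis vectors `e_{s_0} ⊗ ⋯ ⊗ e_{s_{n-1}}`, indexed by the lists `s = [s_0, …, s_{n-1}]`. -/
noncomputable def Piece.act (N : ℕ) (v : ℂ) : Piece → (List (Fin N) → ℂ) → List (Fin N) → ℂ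
  | .cup i, f => fun s => match s.drop i with
      | a :: b :: r => NeighbourTwistRegions.cup N v (a, b) * f (s.take i ++ r)
      | _ => 0
  | .cap i, f => fun s =>
      ∑ p : Fin N × Fin N, NeighbourTwistRegions.cap N v p * f (s.take i ++ p.1 :: p.2 :: s.drop i)
  | .twist i σ m, f => fun s => match s.drop i with
      | a :: b :: r => ∑ p : Fin N × Fin N,
          ((if σ then crossP N v else crossN N v) ^ m) (a, b) p * f (s.take i ++ p.1 :: p.2 :: r)
      | _ => 0

/-- The operator of a diagram. -/
noncomputable def run (N : ℕ) (v : ℂ) (D : Diagram) (f : List (Fin N) → ℂ) : List (Fin N) → ℂ :=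
  D.foldl (fun g P => P.act N v g) f

/-- The `N`-coloured Jones polynomial of the closure of a (1,1)-tangle (unknot `= 1`; all components
coloured `N`) at `q = v^2`, up to sign and powers of `v`: the entry of the operator of the tangle at
the highest weight vector `e_0`. -/
noncomputable def jones (N : ℕ) (D : Diagram) (v : ℂ) : ℂ :=
  if h : 0 < N then run N v D (fun s => if s = [⟨0, h⟩] then 1 else 0) [⟨0, h⟩] else 0

/-- `v_N = exp (π i / N)`, so that `q = v_N^2 = exp (2 π i / N)`. -/
noncomputable def root (N : ℕ) : ℂ := Complex.exp (Real.pi * Complex.I / N)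

/-- The Kashaev invariant, up to a factor of absolute value `1` (framing, sign). -/
noncomputable def kashaev (D : Diagram) (N : ℕ) : ℂ := jones N D (root N)

/-! ### The constants -/

/-- Lobachevsky's function `Λ(x) = -∫_0^x log |2 sin t| dt`. -/
noncomputable def Lob (x : ℝ) : ℝ := -∫ t in (0 : ℝ)..x, Real.log |2 * Real.sin t|

/-- the volume of the regular ideal tetrahedron -/
noncomputable def v3 : ℝ := 3 * Lob (Real.pi / 3)

/-- the volume of the regular ideal octahedron -/
noncomputable def v8 : ℝ := 8 * Lob (Real.pi / 4)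

/-- the bound for a twist region of `m` crossings -/
noncomputable def rate (m : ℕ) : ℝ := min (m * v8) (10 * v3)

/-! ### Reflected tangles, and the ends of the diagram -/

/-- The piece `P`, with `n` strands below it, after the rotation by `π` of the plane of the diagram
and the exchange of the over- and undercrossings. -/
def Piece.turn : ℕ → Piece → Piece
  | n, .cup i => .cap (n - i)
  | n, .cap i => .cup (n - 2 - i)
  | n, .twist i σ m => .twist (n - 2 - i) (!σ) m

/-- The diagram `D`, with `n` strands below it, after the rotation by `π` of the plane of the diagram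
and the exchange of the over- and undercrossings (together this is the reflection of space in a
point).  If `T` and `S` are (1,3)-tangles, then `T ++ star 1 S` is a (1,1)-tangle, and its closure is
the union of `T` and of the mirror image of `S`, glued along a Conway sphere. -/
def star : ℕ → Diagram → Diagram
  | _, [] => []
  | n, P :: D => star ((P.strands n).getD 0) D ++ [P.turn n]

/-- A twist region with `m` crossings, one strand below and three strands above: a strand comes from
below to the lower left (`b = true`) or to the lower right (`b = false`) end of the twist region, the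
other lower end is turned upwards.  If a link diagram has two twist regions with `m` and `m'`
crossings which are joined by an arc, then the link, cut open at a point of this arc, can be drawn as
`region b σ m ++ D ++ star 1 (region b' σ' m')`, where `D` has three strands at both ends and contains
the other twist regions. -/
def region (b σ : Bool) (m : ℕ) : Diagram :=
  if b then [.cup 1, .twist 0 σ m] else [.cup 0, .twist 1 σ m]

/-- The numbers of crossings of the twist regions of a diagram. -/
def regions : Diagram → List ℕ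
  | [] => []
  | .cup _ :: D => regions D
  | .cap _ :: D => regions D
  | .twist _ _ m :: D => m :: regions D

/-! ### The double twist links `C(m, m)`

For `m ≥ 4` the complement of `C(m, m)` has a canonical ideal triangulation (Sakuma and Weeks;
Gueritaud and Futer) with `2 m - 3` layers of two ideal tetrahedra.  Its angle structures are
parametrised by `w_0, …, w_{2m-2}` with `w_0 = w_{2m-2} = π`; both tetrahedra of layer `i` have the
dihedral angles `angX`, `angY`, `angZ`.  Layer `m - 1` is the hinge between the two twist regions.  By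
Casson and Rivin (see Gueritaud and Futer) the maximum of the volume functional is the hyperbolic
volume. -/

/-- first dihedral angle of the tetrahedra of layer `i` -/
noncomputable def angX (m : ℕ) (w : ℕ → ℝ) (i : ℕ) : ℝ :=
  if i + 1 = m then (w (i - 1) + w i - w (i + 1)) / 2 else (w (i - 1) + w (i + 1)) / 2

/-- second dihedral angle of the tetrahedra of layer `i` -/
noncomputable def angY (m : ℕ) (w : ℕ → ℝ) (i : ℕ) : ℝ :=
  if i + 1 = m then (-w (i - 1) + w i + w (i + 1)) / 2
  else (2 * w i - w (i - 1) - w (i + 1)) / 2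

/-- third dihedral angle of the tetrahedra of layer `i` -/
noncomputable def angZ (w : ℕ → ℝ) (i : ℕ) : ℝ := Real.pi - w i

/-- the angle structures -/
def IsAngle (m : ℕ) (w : ℕ → ℝ) : Prop :=
  w 0 = Real.pi ∧ w (m + m - 2) = Real.pi ∧
    ∀ i, 1 ≤ i → i ≤ m + m - 3 → 0 < angX m w i ∧ 0 < angY m w i ∧ 0 < angZ w i

/-- the volume of an angle structure: two ideal tetrahedra in every layer -/
noncomputable def vol (m : ℕ) (w : ℕ → ℝ) : ℝ :=
  ∑ i ∈ Icc 1 (m + m - 3), 2 * (Lob (angX m w i) + Lob (angY m w i) + Lob (angZ w i))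

/-- The volume of the complement of `C(m, m)`, `m ≥ 2` (for `m = 2` the figure eight knot, for
`m = 3` the link `6^2_2`, which has the volume `4 v_3`); zero for the unknot `C(0, 0)` and the Hopf
link `C(1, 1)`. -/
noncomputable def doubleVol (m : ℕ) : ℝ :=
  if m ≤ 1 then 0 else if m = 2 then 2 * v3 else if m = 3 then 4 * v3
  else sSup {W : ℝ | ∃ w, IsAngle m w ∧ vol m w = W}

/-! ### Translation to the library -/

/-- the pieces of the library -/
def tr : Piece → Pool.Agent.W709.QAT.Piece
  | .cup i => .cup i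
  | .cap i => .cap i
  | .twist i σ m => .twist i σ m

lemma act_eq (N : ℕ) (v : ℂ) (P : Piece) (f : List (Fin N) → ℂ) :
    P.act N v f = (tr P).act N v f := by
  cases P with
  | cup i =>
    funext s
    simp only [Piece.act, tr, Pool.Agent.W709.QAT.Piece.act]
    rcases s.drop i with _ | ⟨a, _ | ⟨b, r⟩⟩ <;> rfl
  | cap i => rfl
  | twist i σ m =>
    funext s
    simp only [Piece.act, tr, Pool.Agent.W709.QAT.Piece.act]
    rcases s.drop i with _ | ⟨a, _ | ⟨b, r⟩⟩ <;> rfl

lemma run_eq (N : ℕ) (v : ℂ) (D : Diagram) (f : List (Fin N) → ℂ) :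
    run N v D f = Pool.Agent.W709.QAT.run N v (D.map tr) f := by
  unfold run Pool.Agent.W709.QAT.run
  induction D generalizing f with
  | nil => rfl
  | cons P D ih =>
    rw [List.map_cons, List.foldl_cons, List.foldl_cons, act_eq, ih]

lemma jones_eq (N : ℕ) (D : Diagram) :
    jones N D = Pool.Agent.W709.QAT.jones N (D.map tr) := by
  funext v
  unfold jones Pool.Agent.W709.QAT.jones
  split_ifs with h
  · rw [run_eq]
  · rfl

lemma kashaev_eq (N : ℕ) (D : Diagram) : kashaev D N =
    Pool.Agent.W709.QAT.jones N (D.map tr) (Pool.Agent.W715.VC.rt N) := by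
  unfold kashaev
  rw [jones_eq]
  rfl

lemma strands_eq (P : Piece) (n : ℕ) : (tr P).strands n = P.strands n := by
  cases P <;> rfl

open Pool.Agent.J4.H94.RP (Tan dag endT)

lemma tangle_eq (D : Diagram) (n k : ℕ) : IsTangle D n k ↔ Tan (D.map tr) n k := by
  unfold IsTangle Tan
  have h : ∀ o : Option ℕ, D.foldl (fun n P => n.bind P.strands) o =
      (D.map tr).foldl (fun n P => n.bind P.strands) o := by
    induction D with
    | nil => intro o; rfl
    | cons P D ih =>
      intro o
      rw [List.map_cons, List.foldl_cons, List.foldl_cons, ← ih]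
      congr 1
      cases o with
      | none => rfl
      | some m => exact (strands_eq P m).symm
  rw [h]

lemma turn_eq (P : Piece) (n : ℕ) : tr (P.turn n) = Pool.Agent.J4.H94.RP.flip n (tr P) := by
  cases P <;> rfl

lemma star_eq (D : Diagram) : ∀ n : ℕ, (star n D).map tr = dag n (D.map tr) := by
  induction D with
  | nil => intro n; rfl
  | cons P D ih =>
    intro n
    rw [List.map_cons, Pool.Agent.J4.H94.RP.dag_cons, strands_eq, ← turn_eq, ← ih]
    change (star ((P.strands n).getD 0) D ++ [P.turn n]).map tr = _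
    rw [List.map_append]
    rfl

lemma region_eq (b σ : Bool) (m : ℕ) : (region b σ m).map tr = endT b σ m := by
  cases b <;> rfl

lemma regions_eq (D : Diagram) :
    regions D = (D.map tr).filterMap Pool.Agent.W709.QAT.Piece.size := by
  induction D with
  | nil => rfl
  | cons P D ih =>
    cases P with
    | cup i => exact ih
    | cap i => exact ih
    | twist i σ m => exact congrArg (m :: ·) ih

lemma lob_eq (x : ℝ) : Lob x = GapVol.lob x := rfl

lemma rate_eq (m : ℕ) : rate m = Pool.Agent.W709.QAT.rate m := by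
  unfold rate Pool.Agent.W709.QAT.rate v3 v8
  rw [lob_eq, lob_eq]
  congr 1
  ring

lemma rs_eq (D : Diagram) : Pool.Agent.J4.H94.RP.rs (D.map tr) = ((regions D).map rate).sum := by
  unfold Pool.Agent.J4.H94.RP.rs
  rw [← regions_eq]
  congr 1
  exact List.map_congr_left fun m _ => (rate_eq m).symm

lemma v3_six : v3 = 2 * GapVol.lob (Real.pi / 6) := by
  unfold v3
  rw [lob_eq, GapVol.lob_dup]

lemma volume_eq (m : ℕ) : {W : ℝ | ∃ w, IsAngle m w ∧ vol m w = W} =
    {W : ℝ | ∃ w, Pool.Agent.W709.VC.IsAngle m m w ∧ Pool.Agent.W709.VC.volw m m w = W} := rfl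

lemma pairing_eq (N : ℕ) (T S : Diagram) : kashaev (T ++ star 1 S) N =
    Pool.Agent.J4.H94.RP.kp N (T.map tr) (S.map tr) := by
  rw [kashaev_eq, List.map_append, star_eq]
  rfl

/-- the growth rates of the doubles -/
lemma doubleVol_spec (m : ℕ) : 0 ≤ doubleVol m ∧ doubleVol m ≤ 2 * v8 ∧
    (4 ≤ m → IsGreatest {W : ℝ | ∃ w, IsAngle m w ∧ vol m w = W} (doubleVol m)) ∧
    ∀ b σ : Bool, Pool.Agent.J4.H94.RP.Gr (endT b σ m) (doubleVol m) := by
  obtain ⟨V, h0, h1, h2, h3, h4, h5, h6⟩ := Pool.Agent.J4.H94.RP.ends m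
  have e : doubleVol m = V := by
    unfold doubleVol
    split_ifs with g1 g2 g3
    · exact (h2 g1).symm
    · rw [h3 g2, v3_six]; ring
    · rw [h4 g3, v3_six]; ring
    · rw [volume_eq]
      exact (h5 (by omega)).csSup_eq
  rw [e]
  refine ⟨h0, ?_, ?_, fun b σ => Pool.Agent.J4.H94.RP.Gr_of_kap h6 b σ⟩
  · unfold v8
    rw [lob_eq]
    linarith
  · intro hm
    rw [volume_eq]
    exact h5 hm

/-! ### Checks of the definitions (not part of the result)

For `N = 2` the skein relation; the moves that generate the isotopies of diagrams of unoriented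
links, up to a factor `c` with `|c| = 1` for `|v| = 1`. -/

/-- For `N = 2` the crossings satisfy the skein relation of the Jones polynomial. -/
theorem skein (v : ℂ) (hv : v ≠ 0) (h1 : br v 1 ≠ 0) :
    v ^ 2 • crossP 2 v - (v ^ 2)⁻¹ • crossN 2 v =
      (v - v⁻¹) • (1 : Matrix (Fin 2 × Fin 2) (Fin 2 × Fin 2) ℂ) :=
  Pool.Agent.H550R3.Jones.taskSanSkein v hv h1

/-- Zigzag. -/
theorem zigzag (N : ℕ) (v : ℂ) (hv : v ≠ 0) (h : ∀ k : ℕ, 0 < k → k < N → br v k ≠ 0)
    (f : List (Fin N) → ℂ) (i : ℕ) (s : List (Fin N)) (hi : i < s.length) :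
    run N v [.cup (i + 1), .cap i] f s = f s ∧ run N v [.cup i, .cap (i + 1)] f s = f s := by
  rw [run_eq, run_eq]
  exact Pool.Agent.W591.QAT.zz N v hv h f i s hi

/-- The first Reidemeister move (four cases). -/
theorem reidemeister_one (N : ℕ) (v : ℂ) (hv : v ≠ 0) (h : ∀ k : ℕ, 0 < k → k < N → br v k ≠ 0)
    (hN : 0 < N) (f : List (Fin N) → ℂ) (i : ℕ) (s : List (Fin N)) :
    (i + 2 ≤ s.length →
      run N v [.cup i, .twist i true 1] f s =
        (-1) ^ (N - 1) * v ^ (-((N : ℤ) ^ 2 - 1)) * run N v [.cup i] f s ∧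
      run N v [.cup i, .twist i false 1] f s =
        (-1) ^ (N - 1) * v ^ ((N : ℤ) ^ 2 - 1) * run N v [.cup i] f s) ∧
    (i ≤ s.length →
      run N v [.twist i true 1, .cap i] f s =
        (-1) ^ (N - 1) * v ^ (-((N : ℤ) ^ 2 - 1)) * run N v [.cap i] f s ∧
      run N v [.twist i false 1, .cap i] f s =
        (-1) ^ (N - 1) * v ^ ((N : ℤ) ^ 2 - 1) * run N v [.cap i] f s) := by
  simp only [run_eq]
  exact ⟨fun hi => ⟨Pool.Agent.W193.QAT.r1 N v hv h hN f i s hi,
      Pool.Agent.W193.QAT.r1n N v hv h hN f i s hi⟩,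
    fun hi => ⟨Pool.Agent.W193.QAT.r1c N v hv h hN f i s hi,
      Pool.Agent.W193.QAT.r1cn N v hv h hN f i s hi⟩⟩

/-- The second and the third Reidemeister move. -/
theorem reidemeister_two_three (N : ℕ) (v : ℂ) (hv : v ≠ 0)
    (h : ∀ k : ℕ, 0 < k → k < N → br v k ≠ 0) (f : List (Fin N) → ℂ) (i : ℕ) (s : List (Fin N)) :
    (i + 2 ≤ s.length →
      run N v [.twist i true 1, .twist i false 1] f s = f s ∧
      run N v [.twist i false 1, .twist i true 1] f s = f s) ∧
    (i + 3 ≤ s.length →
      run N v [.twist i true 1, .twist (i + 1) true 1, .twist i true 1] f s =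
      run N v [.twist (i + 1) true 1, .twist i true 1, .twist (i + 1) true 1] f s) := by
  rw [run_eq, run_eq, run_eq, run_eq]
  exact Pool.Agent.W591.QAT.reid N v hv h f i s

/-- A strand slides over a cup and over a cap. -/
theorem slide (N : ℕ) (v : ℂ) (hv : v ≠ 0) (h : ∀ k : ℕ, 0 < k → k < N → br v k ≠ 0)
    (f : List (Fin N) → ℂ) (i : ℕ) (s : List (Fin N)) (σ : Bool) :
    (i + 3 ≤ s.length →
      run N v [.cup (i + 1), .twist i σ 1, .twist (i + 1) σ 1] f s =
        v ^ (if σ then -((N : ℤ) ^ 2 - 1) else (N : ℤ) ^ 2 - 1) * run N v [.cup i] f s ∧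
      run N v [.cup i, .twist (i + 1) σ 1, .twist i σ 1] f s =
        v ^ (if σ then -((N : ℤ) ^ 2 - 1) else (N : ℤ) ^ 2 - 1) * run N v [.cup (i + 1)] f s) ∧
    (i + 1 ≤ s.length →
      run N v [.twist i σ 1, .twist (i + 1) σ 1, .cap i] f s =
        v ^ (if σ then -((N : ℤ) ^ 2 - 1) else (N : ℤ) ^ 2 - 1) * run N v [.cap (i + 1)] f s ∧
      run N v [.twist (i + 1) σ 1, .twist i σ 1, .cap (i + 1)] f s =
        v ^ (if σ then -((N : ℤ) ^ 2 - 1) else (N : ℤ) ^ 2 - 1) * run N v [.cap i] f s) := by
  have e : Pool.Agent.W683.QAT.ct N v σ =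
      v ^ (if σ then -((N : ℤ) ^ 2 - 1) else (N : ℤ) ^ 2 - 1) := by
    unfold Pool.Agent.W683.QAT.ct Pool.Agent.W683.QAT.cst
    cases σ
    · simp only [Bool.false_eq_true, if_false]
      rw [zpow_neg, inv_inv]
    · simp only [if_true]
  rw [← e]
  simp only [run_eq]
  exact Pool.Agent.W683.QAT.slide_all N v hv h f i s σ

/-- A twist region is a stack of crossings. -/
theorem twist_succ (N : ℕ) (v : ℂ) (f : List (Fin N) → ℂ) (i m : ℕ) (σ : Bool)
    (s : List (Fin N)) (hi : i + 2 ≤ s.length) :
    run N v [.twist i σ m, .twist i σ 1] f s = run N v [.twist i σ (m + 1)] f s := by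
  simp only [run_eq]
  exact Pool.Agent.W613.QAT.pow N v f i m σ s hi

/-- The reflected diagram is a tangle. -/
theorem star_tangle {D : Diagram} {n k : ℕ} (h : IsTangle D n k) : IsTangle (star n D) k n := by
  rw [tangle_eq] at h ⊢
  rw [star_eq]
  exact Pool.Agent.J4.H94.RP.dag_Tan h

/-- Example: the closure of `region true true m ++ star 1 (region true true m)` is `C(m, m)`. -/
example (m : ℕ) : region true true m ++ star 1 (region true true m) =
    [.cup 1, .twist 0 true m, .twist 1 false m, .cap 0] := rfl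

/-! ### The result -/

/-- **Growth of the Kashaev invariants of all links with at least two twist regions.**
(1) For every `N ≥ 1` the coloured Jones polynomial is continuous at `v_N`, so that `kashaev D N` is
its value at `q = e^(2 π i / N)` in the usual sense.
(2) Let `T`, `S` be any (1,3)-tangles and `D` any (3,3)-tangle, and let `r` be the sum of the numbers
`rate a = min (a v_8) (10 v_3)` over the twist regions of `D`, `a` the number of crossings.  Then, for
every `ε > 0` and all large `N`,
`|⟨T D S*⟩_N|² ≤ |⟨T T*⟩_N| |⟨S S*⟩_N| exp (N (r / π + ε))`.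
(3) If `T` and `S` are twist regions with `m` and `m'` crossings, then
`limsup (2 π / N) log |⟨T D S*⟩_N| ≤ (E(m) + E(m')) / 2 + r`, `E(m) = doubleVol m`.
(4) `E(m) ≤ 2 v_8` for all `m`, and for `m ≥ 4` the number `E(m)` is the maximal volume of an angle
structure of the canonical triangulation of the complement of `C(m, m)`.
(5) Hence the upper limit in (3) is at most `2 v_8 + 10 v_3 (t - 2)`, if the diagram has `t` twist
regions. -/
theorem result :
    (∀ (D : Diagram) (N : ℕ), 1 ≤ N → ContinuousAt (jones N D) (root N)) ∧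
    (∀ T S D : Diagram, IsTangle T 1 3 → IsTangle S 1 3 → IsTangle D 3 3 → ∀ ε : ℝ, 0 < ε →
      ∀ᶠ N : ℕ in atTop, ‖kashaev (T ++ D ++ star 1 S) N‖ ^ 2 ≤
        ‖kashaev (T ++ star 1 T) N‖ * ‖kashaev (S ++ star 1 S) N‖ *
          Real.exp (N * (((regions D).map rate).sum / Real.pi + ε))) ∧
    (∀ (b σ b' σ' : Bool) (m m' : ℕ) (D : Diagram), IsTangle D 3 3 → ∀ ε : ℝ, 0 < ε →
      ∀ᶠ N : ℕ in atTop, 
        2 * Real.pi * (Real.log ‖kashaev (region b σ m ++ D ++ star 1 (region b' σ' m')) N‖ / N) ≤
          (doubleVol m + doubleVol m') / 2 + ((regions D).map rate).sum + ε) ∧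
    (∀ m : ℕ, doubleVol m ≤ 2 * v8 ∧
      (4 ≤ m → IsGreatest {W : ℝ | ∃ w, IsAngle m w ∧ vol m w = W} (doubleVol m))) ∧
    (∀ (b σ b' σ' : Bool) (m m' : ℕ) (D : Diagram), IsTangle D 3 3 → ∀ ε : ℝ, 0 < ε →
      ∀ᶠ N : ℕ in atTop, 
        2 * Real.pi * (Real.log ‖kashaev (region b σ m ++ D ++ star 1 (region b' σ' m')) N‖ / N) ≤
          2 * v8 + 10 * v3 * (regions D).length + ε) := by
  have key : ∀ (b σ b' σ' : Bool) (m m' : ℕ) (D : Diagram), IsTangle D 3 3 → ∀ ε : ℝ, 0 < ε →
      ∀ᶠ N : ℕ in atTop, 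
        2 * Real.pi * (Real.log ‖kashaev (region b σ m ++ D ++ star 1 (region b' σ' m')) N‖ / N) ≤
          (doubleVol m + doubleVol m') / 2 + ((regions D).map rate).sum + ε := by
    intro b σ b' σ' m m' D hD ε hε
    rw [tangle_eq] at hD
    have h := Pool.Agent.J4.H94.RP.growth_le (Pool.Agent.J4.H94.RP.endT_Tan b σ m)
      (Pool.Agent.J4.H94.RP.endT_Tan b' σ' m') hD (doubleVol_spec m).1 (doubleVol_spec m').1
      ((doubleVol_spec m).2.2.2 b σ) ((doubleVol_spec m').2.2.2 b' σ') hε
    filter_upwards [h] with N hN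
    rw [kashaev_eq, List.map_append, List.map_append, star_eq, region_eq, region_eq]
    rw [rs_eq] at hN
    linarith
  refine ⟨?_, ?_, key, fun m => ⟨(doubleVol_spec m).2.1, (doubleVol_spec m).2.2.1⟩, ?_⟩
  · intro D N hN
    rw [jones_eq]
    exact Pool.Agent.W613.QAT.cont (D.map tr) N hN
  · intro T S D hT hS hD ε hε
    rw [tangle_eq] at hT hS hD
    filter_upwards [Pool.Agent.J4.H94.RP.growth_sandwich hT hS hD hε] with N hN
    rw [rs_eq] at hN
    rw [kashaev_eq, List.map_append, List.map_append, star_eq, pairing_eq, pairing_eq]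
    refine hN.trans ?_
    by_cases hN0 : N = 0
    · subst hN0
      have h1 : ∀ D' : Pool.Agent.W709.QAT.Diag, Pool.Agent.W709.QAT.jones 0 D'
          (Pool.Agent.W715.VC.rt 0) = 0 := by
        intro D'
        unfold Pool.Agent.W709.QAT.jones
        rw [dif_neg (lt_irrefl 0)]
      unfold Pool.Agent.J4.H94.RP.kp
      simp only [h1, Complex.zero_re, norm_zero]
      exact le_rfl
    · have h2 := (Pool.Agent.J4.H94.RP.kp_self (Nat.pos_of_ne_zero hN0) hS).1
      exact mul_le_mul_of_nonneg_right (mul_le_mul (Complex.re_le_norm _) (Complex.re_le_norm _)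
        h2 (norm_nonneg _)) (Real.exp_pos _).le
  · intro b σ b' σ' m m' D hD ε hε
    filter_upwards [key b σ b' σ' m m' D hD ε hε] with N hN
    have h1 : ((regions D).map rate).sum ≤ 10 * v3 * (regions D).length := by
      have h2 : ∀ x ∈ (regions D).map rate, x ≤ 10 * v3 := by
        intro x hx
        obtain ⟨a, -, rfl⟩ := List.mem_map.1 hx
        exact min_le_right _ _
      have h3 := List.sum_le_card_nsmul _ _ h2
      rw [List.length_map, nsmul_eq_mul] at h3
      linarith
    have h4 := (doubleVol_spec m).2.1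
    have h5 := (doubleVol_spec m').2.1
    linarith

end Pool.Agent.J4.H94.Old.NeighbourTwistRegions
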